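import Pool.Agent.H81.D3.Targets

/-!
MP_ee74d2_an, row DCX: wave packet decomposition at one point (as row DCP of helper92).
-/

set_option autoImplicit false

namespace Pool.Agent.H37.D3

open MeasureTheory Set Filter Pool.Agent.H83.G Pool.Agent.H81.D3
open scoped ENNReal NNReal RealInnerProductSpace

theorem sR_pos {R : ℝ} (hR : 1 ≤ R) : 0 < sR R := by
  unfold sR
  exact inv_pos.2 (Real.sqrt_pos.2 (by linarith))

theorem sR_le_one {R : ℝ} (hR : 1 ≤ R) : sR R ≤ 1 := by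
  unfold sR
  exact inv_le_one_of_one_le₀ (by rw [Real.one_le_sqrt]; exact hR)

theorem integrable_e {m : ℕ} {G : Z m → ℂ} (hG : TC G) (z : Z m) :
    Integrable fun ζ : Z m => e (ph z ζ) * G ζ := by
  have h1 : Continuous fun ζ : Z m => e (ph z ζ) := by
    unfold e ph
    fun_prop
  exact (h1.mul hG.1.continuous).integrable_of_hasCompactSupport hG.2.mul_left

theorem TF_split (hPUS : T_PUS) (hCPS : T_CPS) {m : ℕ} {β : E m → ℂ} (hβ : IsPU β) {κ R : ℝ}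
    (hκ : κ ≤ 1 / 2) {G : Z m → ℂ} (hR : 1 ≤ R) (hG : TC G)
    (hsupp : ∀ ζ, G ζ ≠ 0 → ζ ∈ Rg m κ R⁻¹) (z : Z m) :
    TF G z = ∑ k ∈ Ks m (sR R), TP β (ctr (sR R) k) (sR R) G z := by
  have hs := sR_pos hR
  have h1 : ∀ ζ, G ζ = ∑ k ∈ Ks m (sR R), cp β (ctr (sR R) k) (sR R) ζ * G ζ := by
    intro ζ
    by_cases h0 : G ζ = 0
    · simp [h0]
    · obtain ⟨a1, a2, a3, a4⟩ := hsupp ζ h0
      have h2 : 0 < ζ.1 := by linarith
      have h3 : ‖ζ.1⁻¹ • ζ.2.1‖ ≤ 3 / 2 := by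
        rw [norm_smul, Real.norm_of_nonneg (by positivity), inv_mul_le_iff₀ h2]
        nlinarith
      rw [← Finset.sum_mul, ((hPUS m).1 β (sR R) hβ hs).2 (sR_le_one hR) ζ h3, one_mul]
  have h2 : ∀ k, TC (fun ζ => cp β (ctr (sR R) k) (sR R) ζ * G ζ) := by
    intro k
    refine hCPS m β _ _ G hβ.1 hs hG fun ζ hζ => ?_
    have := (hsupp ζ hζ).1
    linarith
  unfold TP TF
  rw [← integral_finsetSum _ fun k _ => integrable_e (h2 k) z]
  refine integral_congr_ae (Filter.Eventually.of_forall fun ζ => ?_)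
  simp only
  rw [← Finset.mul_sum, ← h1 ζ]

theorem pf_DCX (hPUS : T_PUS) (_hSPK : T_SPK) (_hSCH : T_SCH) (_hWT3 : T_WT3) (hCPS : T_CPS)
    (hTLS : T_TLS) : T_DCX := by
  classical
  intro m L β Ψ ψ δ M hβ hψ hδ hδ4
  obtain ⟨C1, hC1, hC1'⟩ := hTLS m L (m + 3) β Ψ ψ δ M hβ hψ hδ hδ4 le_rfl
  refine ⟨C1, hC1, ?_⟩
  intro κ R A G S z hκ0 hκ hR hA hG hSK hSn
  obtain ⟨hTC, hsupp, -⟩ := id hG
  have hsum : ∀ k : Fin m → ℤ, HasSum (fun l : Zi m => Fp β ψ R δ G (k, l) z)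
      (TP β (ctr (sR R) k) (sR R) G z) := by
    intro k
    have h1 := hψ.2.2.2.2 (fc R δ k z)
    have h2 := (Complex.ofRealCLM.hasSum h1).mul_left (TP β (ctr (sR R) k) (sR R) G z)
    simpa [Fp, Function.comp_def] using h2
  have hlim : Tendsto (fun T : Finset (Zi m) => ∑ k ∈ Ks m (sR R), ∑ l ∈ T,
      Fp β ψ R δ G (k, l) z) atTop (nhds (TF G z)) := by
    rw [TF_split hPUS hCPS hβ hκ hR hTC hsupp z]
    exact tendsto_finsetSum _ fun k _ => hsum k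
  have hlim2 := (hlim.sub_const (∑ W ∈ S, Fp β ψ R δ G W z)).norm
  refine le_of_tendsto hlim2 ?_
  filter_upwards [eventually_ge_atTop (S.image Prod.snd)] with T hT
  have h1 : S ⊆ Ks m (sR R) ×ˢ T := by
    intro W hW
    exact Finset.mem_product.2 ⟨hSK W hW, hT (Finset.mem_image_of_mem _ hW)⟩
  have h2 : ∑ k ∈ Ks m (sR R), ∑ l ∈ T, Fp β ψ R δ G (k, l) z =
      ∑ W ∈ Ks m (sR R) ×ˢ T, Fp β ψ R δ G W z :=
    (Finset.sum_product' _ _ _).symm
  rw [h2, ← Finset.sum_sdiff h1, add_sub_cancel_right]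
  refine (norm_sum_le _ _).trans ?_
  refine (hC1' κ R A G ((Ks m (sR R) ×ˢ T) \ S) z hκ0 hκ hR hA hG ?_).1 ?_
  · intro W hW
    exact (Finset.mem_product.1 (Finset.mem_sdiff.1 hW).1).1
  · intro W hW hn
    have h3 := Finset.mem_sdiff.1 hW
    exact h3.2 (hSn W (Finset.mem_product.1 h3.1).1 hn)

end Pool.Agent.H37.D3
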