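import Pool.Agent.H81.D3.Targets

/-!
MP_ee74d2_an, row H6: number of planks in a ball of radius `w²`.
-/

set_option autoImplicit false

namespace Pool.Agent.H37.D3

open MeasureTheory Set Pool.Agent.H83.G Pool.Agent.H81.D3
open scoped ENNReal NNReal RealInnerProductSpace

theorem wt_shift {m : ℕ} (N : ℕ) (a b : Z m) : wt N a ≤ (1 + ‖a - b‖) ^ N * wt N b := by
  have h : ‖b‖ ≤ ‖a - b‖ + ‖a‖ := by
    have h1 := norm_sub_le a (a - b)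
    rw [sub_sub_cancel] at h1
    linarith
  have h1 : 1 + ‖b‖ ≤ (1 + ‖a - b‖) * (1 + ‖a‖) := by
    nlinarith [mul_nonneg (norm_nonneg (a - b)) (norm_nonneg a)]
  have h2 : (1 + ‖b‖) ^ N ≤ (1 + ‖a - b‖) ^ N * (1 + ‖a‖) ^ N := by
    rw [← mul_pow]
    exact pow_le_pow_left₀ (by positivity) h1 N
  unfold wt
  rw [← div_eq_mul_inv, le_div_iff₀ (by positivity), inv_mul_le_iff₀ (by positivity), mul_comm]
  exact h2

/-- the support of a function of the class is bounded -/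
theorem norm_le_of_Rg {κ r : ℝ} (hκ0 : 0 ≤ κ) (hκ : κ ≤ 1 / 4) (hr : 1 ≤ r) {ζ : Z 2}
    (h : ζ ∈ Rg 2 κ r⁻¹) : ‖ζ‖ ≤ 60 := by
  obtain ⟨h1, h2, h3, h4⟩ := h
  have h5 : 0 < ζ.1 := by linarith
  have hr1 : r⁻¹ ≤ 1 := inv_le_one_of_one_le₀ hr
  have hr0 : 0 ≤ r⁻¹ := by positivity
  have h6 : ‖ζ.2.1‖ ≤ 6 := h3.trans (by nlinarith)
  have h7 : ‖ζ.2.1‖ ^ 2 / ζ.1 ≤ 8 := by
    rw [div_le_iff₀ h5]
    have h8 : ‖ζ.2.1‖ ^ 2 ≤ ((1 + κ) * ζ.1) ^ 2 := pow_le_pow_left₀ (norm_nonneg _) h3 2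
    have h9 : (1 + κ) ^ 2 * ζ.1 ≤ 8 := by
      have h10 : (1 + κ) ^ 2 ≤ 25 / 16 := by nlinarith
      nlinarith
    nlinarith
  have h8 : 0 ≤ ‖ζ.2.1‖ ^ 2 / ζ.1 := by positivity
  have h9 : (1 + κ) * r⁻¹ ≤ 2 := by nlinarith
  have h10 : |ζ.2.2| ≤ 10 := by
    have := abs_sub_abs_le_abs_sub ζ.2.2 (‖ζ.2.1‖ ^ 2 / ζ.1)
    rw [abs_of_nonneg h8] at this
    linarith
  rw [Prod.norm_def, Prod.norm_def]
  refine max_le ?_ (max_le ?_ ?_)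
  · rw [Real.norm_eq_abs, abs_of_pos h5]
    linarith
  · linarith
  · rw [Real.norm_eq_abs]
    linarith

theorem pf_H6 (hRSE : T_RSE) (hCLW : T_CLW) (hCMP : T_CMP) (hENB : T_ENB) (hSPW : T_SPW)
    (_hLOB : T_LOB) (hLOI : T_LOI) (_hWT1 : T_WT1) : T_H6 := by
  classical
  obtain ⟨C, hC1, -, hcmp, -, -⟩ := hCMP
  refine ⟨5, by norm_num, ?_⟩
  intro L β δ hL hβ hδ
  obtain ⟨Cr, hCr, hrse⟩ := hRSE L β hβ
  obtain ⟨Cs, hspw⟩ := hSPW 2 5 60 2 (C ^ 5) (by norm_num) (by positivity)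
  obtain ⟨δ', hδ'⟩ : ∃ δ' : ℝ, δ' = δ / 800 := ⟨_, rfl⟩
  obtain ⟨Ce, hCe, henb⟩ := hENB 2 L 5 β δ' hβ (by rw [hδ']; positivity) (by norm_num)
  refine ⟨Cs * Ce * (3 * C) ^ 5 + 1, by
    have : 0 ≤ (Cs : ℝ) * Ce * (3 * C) ^ 5 := by positivity
    linarith, ?_⟩
  intro R A D h w G z₀ P hw hwR hA hh hD hG hP hsep
  have hw1 : (1 : ℝ) ≤ w := by exact_mod_cast hw
  have hw0 : (0 : ℝ) < w := by linarith
  have hR1 : 1 ≤ R := (one_le_pow₀ hw1).trans hwR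
  have hR0 : 0 < R := by linarith
  have hs0 : (0 : ℝ) < (w : ℝ)⁻¹ := inv_pos.2 hw0
  have hs1 : (w : ℝ)⁻¹ ≤ 1 := inv_le_one_of_one_le₀ hw1
  have hsR : sR ((w : ℝ) ^ 2) = (w : ℝ)⁻¹ := by
    unfold sR
    rw [Real.sqrt_sq hw0.le]
  have hRs : 1 ≤ R * (w : ℝ)⁻¹ ^ 2 := by
    rw [inv_pow, ← div_eq_mul_inv, le_div_iff₀ (by positivity), one_mul]
    exact hwR
  obtain ⟨ρ, hρ⟩ : ∃ ρ : ℝ, ρ = ((w : ℝ) ^ 2) ^ (-(1 + 2 * δ')) := ⟨_, rfl⟩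
  have hρ0 : 0 < ρ := by rw [hρ]; positivity
  have hρw : ρ * (w : ℝ) ^ 2 ≤ 1 := by
    have hw2 : (1 : ℝ) ≤ (w : ℝ) ^ 2 := one_le_pow₀ hw1
    have h1 : ρ ≤ ((w : ℝ) ^ 2) ^ (-1 : ℝ) := by
      rw [hρ]
      refine Real.rpow_le_rpow_of_exponent_le hw2 ?_
      have : 0 ≤ δ' := by rw [hδ']; positivity
      linarith
    rw [Real.rpow_neg_one] at h1
    calc ρ * (w : ℝ) ^ 2 ≤ ((w : ℝ) ^ 2)⁻¹ * (w : ℝ) ^ 2 :=
          mul_le_mul_of_nonneg_right h1 (by positivity)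
      _ = 1 := inv_mul_cancel₀ (by positivity)
  have hCls := hCLW L (1 / 4) R A w G (by norm_num) hw1 hwR hA hG
  have hE := henb (1 / 4) ((w : ℝ) ^ 2) (A * (R / (w : ℝ) ^ 2)) G z₀ (by norm_num) (by norm_num)
    (one_le_pow₀ hw1) (by positivity) hCls
  -- one cap
  have hcap : ∀ κ ∈ Ks 2 (w : ℝ)⁻¹,
      (((P.filter fun p => p.1 = κ).card : ℝ≥0∞)) * ENNReal.ofReal (h ^ 2 * ((3 * C * D) ^ 5)⁻¹) ≤
      Cs * (ENNReal.ofReal (((w : ℝ) ^ 4)⁻¹) *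
        ∫⁻ z, ‖TP β (ctr (w : ℝ)⁻¹ κ) (w : ℝ)⁻¹ G z‖ₑ ^ 2 *
          ENNReal.ofReal (wt 5 (ρ • (z - z₀)))) := by
    intro κ hκ
    obtain ⟨hrc, hrt, -⟩ := hrse (1 / 4) R A (w : ℝ)⁻¹ (ctr (w : ℝ)⁻¹ κ) G (by norm_num)
      (by norm_num) hA hs0 hs1 hRs hG
    have hsurj : ∀ z : Z 2, ∃ y, Lc w κ y = z := fun z => (hcmp w κ z z hw hκ).2.2.2.1
    choose inv hinv using hsurj
    have hlip : ∀ y z, ‖inv y - z‖ ≤ C * (w : ℝ) ^ 2 * ‖y - Lc w κ z‖ := by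
      intro y z
      have h1 := (hcmp w κ (inv y - z) 0 hw hκ).2.2.1
      rw [(hcmp w κ (inv y) z hw hκ).1, hinv] at h1
      exact h1
    have hlip2 : ∀ y y', ‖inv y - inv y'‖ ≤ C * (w : ℝ) ^ 2 * ‖y - y'‖ := by
      intro y y'
      have h1 := hlip y (inv y')
      rwa [hinv] at h1
    have hLi : ∀ z, inv (Lc w κ z) = z := by
      intro z
      have h1 := hlip (Lc w κ z) z
      rw [sub_self, norm_zero, mul_zero] at h1
      exact sub_eq_zero.1 (norm_le_zero_iff.1 h1)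
    have hcont : Continuous inv := by
      refine (LipschitzWith.of_dist_le_mul (K := ⟨C * (w : ℝ) ^ 2, by positivity⟩) ?_).continuous
      intro y y'
      rw [dist_eq_norm, dist_eq_norm]
      exact hlip2 y y'
    obtain ⟨ω, hω⟩ : ∃ ω : Z 2 → ℝ≥0∞, ω = fun y => ENNReal.ofReal (wt 5 (ρ • (inv y - z₀))) :=
      ⟨_, rfl⟩
    have hωm : Measurable ω := by
      rw [hω]
      refine Continuous.measurable ?_
      unfold wt
      refine ENNReal.continuous_ofReal.comp ?_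
      refine Continuous.inv₀ (by fun_prop) fun y => ?_
      have : 0 < (1 + ‖ρ • (inv y - z₀)‖) ^ 5 := by positivity
      exact this.ne'
    have hωs : ∀ z z', ω z ≤ ENNReal.ofReal (C ^ 5 * (1 + ‖z - z'‖) ^ 5) * ω z' := by
      intro y y'
      rw [hω]
      change ENNReal.ofReal _ ≤ ENNReal.ofReal _ * ENNReal.ofReal _
      rw [← ENNReal.ofReal_mul (by positivity)]
      refine ENNReal.ofReal_le_ofReal ((wt_shift 5 _ (ρ • (inv y' - z₀))).trans ?_)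
      have h1 : 0 ≤ wt 5 (ρ • (inv y' - z₀)) := by unfold wt; positivity
      refine mul_le_mul_of_nonneg_right ?_ h1
      rw [← mul_pow]
      refine pow_le_pow_left₀ (by positivity) ?_ 5
      have h2 : ‖ρ • (inv y - z₀) - ρ • (inv y' - z₀)‖ ≤ C * ‖y - y'‖ := by
        rw [← smul_sub, sub_sub_sub_cancel_right, norm_smul, Real.norm_of_nonneg hρ0.le]
        calc ρ * ‖inv y - inv y'‖ ≤ ρ * (C * (w : ℝ) ^ 2 * ‖y - y'‖) :=
              mul_le_mul_of_nonneg_left (hlip2 y y') hρ0.le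
          _ = (ρ * (w : ℝ) ^ 2) * (C * ‖y - y'‖) := by ring
          _ ≤ 1 * (C * ‖y - y'‖) := mul_le_mul_of_nonneg_right hρw (by positivity)
          _ = _ := one_mul _
      nlinarith
    obtain ⟨X, hX⟩ : ∃ X : Finset (Z 2), X = (P.filter fun p => p.1 = κ).image Prod.snd :=
      ⟨_, rfl⟩
    have hXc : (P.filter fun p => p.1 = κ).card = X.card := by
      rw [hX, Finset.card_image_of_injOn]
      intro a ha b hb hab
      have ha' := (Finset.mem_filter.1 (Finset.mem_coe.1 ha)).2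
      have hb' := (Finset.mem_filter.1 (Finset.mem_coe.1 hb)).2
      exact Prod.ext (ha'.trans hb'.symm) hab
    have hXsep : Sep X := by
      intro x hx y hy hxy
      rw [hX] at hx hy
      obtain ⟨p, hp, rfl⟩ := Finset.mem_image.1 hx
      obtain ⟨q, hq, rfl⟩ := Finset.mem_image.1 hy
      obtain ⟨hp1, hp2⟩ := Finset.mem_filter.1 hp
      obtain ⟨hq1, hq2⟩ := Finset.mem_filter.1 hq
      exact hsep p hp1 q hq1 (fun hpq => hxy (by rw [hpq])) (hp2.trans hq2.symm)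
    have hmain := hspw (Gc β w G κ) X ω hrc.1
      (fun ζ hζ => norm_le_of_Rg (by norm_num) le_rfl hRs (hrc.2.1 ζ hζ)) hXsep hωm hωs
    -- lower bound
    have hlow : (X.card : ℝ≥0∞) * ENNReal.ofReal (h ^ 2 * ((3 * C * D) ^ 5)⁻¹) ≤
        ∑ z ∈ X, ‖TF (Gc β w G κ) z‖ₑ ^ (2 : ℝ) * ω z := by
      rw [← nsmul_eq_mul, ← Finset.sum_const]
      refine Finset.sum_le_sum fun x hx => ?_
      rw [hX] at hx
      obtain ⟨p, hp, rfl⟩ := Finset.mem_image.1 hx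
      obtain ⟨hp1, rfl⟩ := Finset.mem_filter.1 hp
      obtain ⟨-, hph, z, hz, hzD⟩ := hP p hp1
      rw [ENNReal.ofReal_mul (by positivity)]
      refine mul_le_mul' ?_ ?_
      · rw [ENNReal.rpow_two, ENNReal.ofReal_pow hh.le, ← ofReal_norm]
        exact pow_le_pow_left' (ENNReal.ofReal_le_ofReal hph) 2
      · rw [hω]
        refine ENNReal.ofReal_le_ofReal ?_
        unfold wt
        refine inv_anti₀ (by positivity) (pow_le_pow_left₀ (by positivity) ?_ 5)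
        have h1 : ‖inv p.2 - z₀‖ ≤ C * (w : ℝ) ^ 2 * D + (w : ℝ) ^ 2 := by
          have h2 := norm_add_le (inv p.2 - z) (z - z₀)
          rw [sub_add_sub_cancel] at h2
          have h3 := hlip p.2 z
          rw [norm_sub_rev p.2] at h3
          have h4 : C * (w : ℝ) ^ 2 * ‖Lc w p.1 z - p.2‖ ≤ C * (w : ℝ) ^ 2 * D :=
            mul_le_mul_of_nonneg_left hzD (by positivity)
          linarith
        rw [norm_smul, Real.norm_of_nonneg hρ0.le]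
        have h5 : ρ * ‖inv p.2 - z₀‖ ≤ C * D + 1 := by
          calc ρ * ‖inv p.2 - z₀‖ ≤ ρ * (C * (w : ℝ) ^ 2 * D + (w : ℝ) ^ 2) :=
                mul_le_mul_of_nonneg_left h1 hρ0.le
            _ = (ρ * (w : ℝ) ^ 2) * (C * D + 1) := by ring
            _ ≤ 1 * (C * D + 1) := mul_le_mul_of_nonneg_right hρw (by positivity)
            _ = _ := one_mul _
        have h6 : 1 ≤ C * D := by nlinarith
        nlinarith
    rw [hXc]
    refine hlow.trans (hmain.trans (mul_le_mul' le_rfl ?_))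
    -- change of variables
    have hloi := (hLOI 2 (ctr (w : ℝ)⁻¹ κ) (w : ℝ)⁻¹ hs0).1
      (fun y => ‖TF (Gc β w G κ) y‖ₑ ^ (2 : ℝ) * ω y)
    have h7 : ∫⁻ z, ‖TP β (ctr (w : ℝ)⁻¹ κ) (w : ℝ)⁻¹ G z‖ₑ ^ 2 *
        ENNReal.ofReal (wt 5 (ρ • (z - z₀))) =
        ∫⁻ z, (fun y => ‖TF (Gc β w G κ) y‖ₑ ^ (2 : ℝ) * ω y)
          (Lo (ctr (w : ℝ)⁻¹ κ) (w : ℝ)⁻¹ z) := by
      refine lintegral_congr fun z => ?_
      change _ = ‖TF (RS β (ctr (w : ℝ)⁻¹ κ) (w : ℝ)⁻¹ G)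
        (Lo (ctr (w : ℝ)⁻¹ κ) (w : ℝ)⁻¹ z)‖ₑ ^ (2 : ℝ) * ω (Lc w κ z)
      rw [hrt, ENNReal.rpow_two, hω]
      change _ = _ * ENNReal.ofReal (wt 5 (ρ • (inv (Lc w κ z) - z₀)))
      rw [hLi]
    rw [h7, hloi, ← mul_assoc, ← ENNReal.ofReal_mul (by positivity)]
    have h8 : ((w : ℝ) ^ 4)⁻¹ * ((w : ℝ)⁻¹)⁻¹ ^ (2 + 2) = 1 := by
      rw [inv_inv]
      exact inv_mul_cancel₀ (by positivity)
    rw [h8, ENNReal.ofReal_one, one_mul]
  -- sum over the caps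
  have hcard : (P.card : ℝ≥0∞) = ∑ κ ∈ Ks 2 (w : ℝ)⁻¹,
      (((P.filter fun p => p.1 = κ).card : ℝ≥0∞)) := by
    rw [Finset.card_eq_sum_card_fiberwise (f := Prod.fst) (t := Ks 2 (w : ℝ)⁻¹)
      (fun p hp => (hP p hp).1)]
    push_cast
    rfl
  have hsum : (P.card : ℝ≥0∞) * ENNReal.ofReal (h ^ 2 * ((3 * C * D) ^ 5)⁻¹) ≤
      Cs * (ENNReal.ofReal (((w : ℝ) ^ 4)⁻¹) * Er 5 β ((w : ℝ) ^ 2) δ' G z₀) := by
    rw [hcard, Finset.sum_mul]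
    refine (Finset.sum_le_sum hcap).trans ?_
    rw [← Finset.mul_sum, ← Finset.mul_sum]
    refine mul_le_mul' le_rfl (mul_le_mul' le_rfl ?_)
    unfold Er
    rw [hsR, hρ]
  have hfin := hsum.trans (mul_le_mul' le_rfl (mul_le_mul' le_rfl hE))
  rw [← ENNReal.ofReal_mul (by positivity), ← ENNReal.ofReal_coe_nnreal (p := Cs),
    ← ENNReal.ofReal_mul Cs.coe_nonneg, ← ENNReal.ofReal_natCast, ← ENNReal.ofReal_mul
    (Nat.cast_nonneg _), ENNReal.ofReal_le_ofReal_iff (by positivity)] at hfin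
  have h9 : ((w : ℝ) ^ 2) ^ (((2 : ℕ) : ℝ) + 2) = (w : ℝ) ^ 8 := by
    have h10 : (((2 : ℕ) : ℝ) + 2) = ((4 : ℕ) : ℝ) := by norm_num
    rw [h10, Real.rpow_natCast, ← pow_mul]
  have h11 : ((w : ℝ) ^ 2) ^ (lo 2 * δ') = (w : ℝ) ^ δ := by
    have h12 : lo 2 * δ' = δ / 2 := by
      rw [hδ']
      unfold lo
      push_cast
      ring
    rw [h12, ← Real.rpow_natCast, ← Real.rpow_mul hw0.le]
    congr 1
    push_cast
    ring
  rw [h9, h11] at hfin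
  have h13 : (Cs : ℝ) * (((w : ℝ) ^ 4)⁻¹ * (Ce * (w : ℝ) ^ δ *
      ((A * (R / (w : ℝ) ^ 2)) ^ 2 * (w : ℝ) ^ 8))) = Cs * Ce * (w : ℝ) ^ δ * (A * R) ^ 2 := by
    field_simp
  rw [h13] at hfin
  have h14 : (0 : ℝ) < (3 * C * D) ^ 5 := by positivity
  have h15 : (P.card : ℝ) * h ^ 2 ≤ Cs * Ce * (w : ℝ) ^ δ * (A * R) ^ 2 * (3 * C * D) ^ 5 := by
    rw [← mul_assoc, ← div_eq_mul_inv, div_le_iff₀ h14] at hfin
    exact hfin
  have h16 : D ^ (5 : ℝ) = D ^ 5 := by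
    have h17 : (5 : ℝ) = ((5 : ℕ) : ℝ) := by norm_num
    rw [h17, Real.rpow_natCast]
  calc (P.card : ℝ) * h ^ 2 ≤ Cs * Ce * (w : ℝ) ^ δ * (A * R) ^ 2 * (3 * C * D) ^ 5 := h15
    _ = Cs * Ce * (3 * C) ^ 5 * D ^ 5 * (w : ℝ) ^ δ * (A * R) ^ 2 := by ring
    _ ≤ (Cs * Ce * (3 * C) ^ 5 + 1) * D ^ 5 * (w : ℝ) ^ δ * (A * R) ^ 2 := by
        have h18 : 0 ≤ D ^ 5 * (w : ℝ) ^ δ * (A * R) ^ 2 := by positivity
        nlinarith
    _ = (Cs * Ce * (3 * C) ^ 5 + 1) * D ^ (5 : ℝ) * (w : ℝ) ^ δ * (A * R) ^ 2 := by rw [h16]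

end Pool.Agent.H37.D3
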